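import Pool.Agent.H70.CommPGL

set_option autoImplicit false

namespace Pool.Agent.Results.MP_dcd76c_al.Clique

open Pool.Agent.H70.CommDefs

theorem result (n : ℕ) (hn : 0 < n) : ∃ (G : Type) (_ : Group G), Finite G ∧
    (∃ x y : G, x * y ≠ y * x) ∧ (commGraph G).cliqueNum = 2 * n + 1 := by
  obtain ⟨G, _, h1, h2, h3, -⟩ := Pool.Agent.H70.CommPGL.main n hn
  exact ⟨G, _, h1, h2, h3⟩

end Pool.Agent.Results.MP_dcd76c_al.Clique
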